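import Mathlib

set_option autoImplicit false

namespace Pool.Agent.Results.MP_b633b3_co.Disproof

/-! ### The notions of the problem -/

section Defs
variable {V W : Type}

/-- The Voronoi cell of the site `v` with respect to the set of sites `T`. -/
def cell (G : SimpleGraph V) (T : Finset V) (v : V) : Set V :=
  {u | ∀ v' ∈ T, G.dist u v ≤ G.dist u v'}

/-- The number of sites of `T` whose Voronoi cell is infinite. -/
noncomputable def numInfinite (G : SimpleGraph V) (T : Finset V) : ℕ :=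
  Set.ncard {v : V | v ∈ T ∧ (cell G T v).Infinite}

/-- `T` belongs to the family of site sets with parameters `d` and `n`. -/
def IsSites (G : SimpleGraph V) (d n : ℕ) (T : Finset V) : Prop :=
  n ≤ T.card ∧ ∀ v₁ ∈ T, ∀ v₂ ∈ T, v₁ ≠ v₂ → d < G.dist v₁ v₂

/-- The survival number of `G`, in the extended naturals. -/
noncomputable def survival (G : SimpleGraph V) : ℕ∞ :=
  sSup {x : ℕ∞ | ∃ n : ℕ, x = n ∧ 1 ≤ n ∧
    ∃ d : ℕ, ∀ T : Finset V, IsSites G d n T → n ≤ numInfinite G T}

/-- Infinite, connected, locally finite and vertex-transitive graphs. -/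
def IsAdmissible (G : SimpleGraph V) : Prop :=
  Infinite V ∧ G.Connected ∧ (∀ v, (G.neighborSet v).Finite) ∧
    ∀ u v : V, ∃ φ : G ≃g G, φ u = v

/-- Quasi-isometry of graphs. -/
def QuasiIsometric (G : SimpleGraph V) (H : SimpleGraph W) : Prop :=
  ∃ (f : V → W) (l c : ℝ), 1 ≤ l ∧ 0 ≤ c ∧
    (∀ x y : V, l⁻¹ * (G.dist x y : ℝ) - c ≤ (H.dist (f x) (f y) : ℝ) ∧
      (H.dist (f x) (f y) : ℝ) ≤ l * (G.dist x y : ℝ) + c) ∧
    ∀ w : W, ∃ x : V, (H.dist w (f x) : ℝ) ≤ c

end Defs

/-! ### Cayley graphs of geodesic norms -/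

section Norm
variable {Γ : Type} [Group Γ]

structure GeoNorm (N : Γ → ℕ) : Prop where
  one : N 1 = 0
  inv : ∀ g, N g⁻¹ = N g
  mul : ∀ g h, N (g * h) ≤ N g + N h
  eq_one : ∀ g, N g = 0 → g = 1
  geo : ∀ g n, N g = n + 1 → ∃ s, N s = 1 ∧ N (s⁻¹ * g) = n

/-- The right-invariant Cayley graph of a norm. -/
def cay (N : Γ → ℕ) (hN : GeoNorm N) : SimpleGraph Γ where
  Adj g h := N (g * h⁻¹) = 1
  symm := ⟨fun g h hgh => by
    rw [← hN.inv]; simpa using hgh⟩
  loopless := ⟨fun g hg => by simp [hN.one] at hg⟩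

theorem cay_adj {N : Γ → ℕ} (hN : GeoNorm N) (g h : Γ) :
    (cay N hN).Adj g h ↔ N (g * h⁻¹) = 1 := Iff.rfl

theorem exists_walk {N : Γ → ℕ} (hN : GeoNorm N) :
    ∀ (n : ℕ) (g h : Γ), N (g * h⁻¹) = n → ∃ p : (cay N hN).Walk g h, p.length = n := by
  intro n
  induction n with
  | zero =>
    intro g h hgh
    have := hN.eq_one _ hgh
    rw [mul_inv_eq_one] at this
    subst this
    exact ⟨SimpleGraph.Walk.nil, rfl⟩
  | succ n ih =>
    intro g h hgh
    obtain ⟨s, hs, hk⟩ := hN.geo _ _ hgh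
    have hadj : (cay N hN).Adj g (s⁻¹ * g) := by
      rw [cay_adj]
      have : g * (s⁻¹ * g)⁻¹ = s := by group
      rw [this, hs]
    obtain ⟨p, hp⟩ := ih (s⁻¹ * g) h (by rw [mul_assoc]; exact hk)
    exact ⟨SimpleGraph.Walk.cons hadj p, by simp [hp]⟩

theorem le_length {N : Γ → ℕ} (hN : GeoNorm N) {g h : Γ} (p : (cay N hN).Walk g h) :
    N (g * h⁻¹) ≤ p.length := by
  induction p with
  | nil => simp [hN.one]
  | @cons u v w huv p ih =>
    have h1 : u * w⁻¹ = (u * v⁻¹) * (v * w⁻¹) := by group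
    have h2 := hN.mul (u * v⁻¹) (v * w⁻¹)
    rw [cay_adj] at huv
    rw [h1, SimpleGraph.Walk.length_cons]
    omega

theorem cay_connected {N : Γ → ℕ} (hN : GeoNorm N) : (cay N hN).Connected := by
  have : Nonempty Γ := ⟨1⟩
  refine SimpleGraph.Connected.mk ?_
  intro g h
  obtain ⟨p, -⟩ := exists_walk hN _ g h rfl
  exact ⟨p⟩

theorem cay_dist {N : Γ → ℕ} (hN : GeoNorm N) (g h : Γ) :
    (cay N hN).dist g h = N (g * h⁻¹) := by
  apply le_antisymm
  · obtain ⟨p, hp⟩ := exists_walk hN _ g h rfl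
    rw [← hp]
    exact SimpleGraph.dist_le p
  · obtain ⟨p, hp⟩ := (cay_connected hN).exists_walk_length_eq_dist g h
    rw [← hp]
    exact le_length hN p

theorem cay_admissible {N : Γ → ℕ} (hN : GeoNorm N) (hinf : Infinite Γ)
    (hfin : {g : Γ | N g = 1}.Finite) : IsAdmissible (cay N hN) := by
  refine ⟨hinf, cay_connected hN, ?_, ?_⟩
  · intro v
    refine (hfin.image (fun s => s⁻¹ * v)).subset ?_
    intro w hw
    refine ⟨v * w⁻¹, ?_, by group⟩
    exact hw
  · intro u v
    refine ⟨⟨Equiv.mulRight (u⁻¹ * v), ?_⟩, ?_⟩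
    · intro a b
      rw [cay_adj, cay_adj]
      have : (Equiv.mulRight (u⁻¹ * v)) a * ((Equiv.mulRight (u⁻¹ * v)) b)⁻¹ = a * b⁻¹ := by
        simp only [Equiv.coe_mulRight]
        group
      rw [this]
    · show (Equiv.mulRight (u⁻¹ * v)) u = v
      simp

end Norm

/-! ### The free group of rank two -/

section Free

open FreeGroup

/-- The free group of rank two. -/
abbrev F2 : Type := FreeGroup (Fin 2)

theorem norm_mk_tail {x : Fin 2 × Bool} {L : List (Fin 2 × Bool)} {g : F2}
    (h : g.toWord = x :: L) : (FreeGroup.mk L : F2).toWord = L := by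
  rw [toWord_mk]
  apply IsReduced.reduce_eq
  have h2 : IsReduced (x :: L) := h ▸ isReduced_toWord
  exact List.IsChain.tail h2

theorem norm_geo (g : F2) (n : ℕ) (h : norm g = n + 1) :
    ∃ s : F2, norm s = 1 ∧ norm (s⁻¹ * g) = n := by
  have hlen : g.toWord.length = n + 1 := h
  match hw : g.toWord with
  | [] => rw [hw] at hlen; simp at hlen
  | x :: L =>
    refine ⟨FreeGroup.mk [x], ?_, ?_⟩
    · show (FreeGroup.mk [x] : F2).toWord.length = 1
      rw [toWord_mk, reduce_singleton]; rfl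
    · have hg : g = FreeGroup.mk [x] * FreeGroup.mk L := by
        rw [mul_mk, ← mk_toWord (x := g), hw]; rfl
      rw [hg, inv_mul_cancel_left]
      show (FreeGroup.mk L : F2).toWord.length = n
      rw [norm_mk_tail hw]
      rw [hw] at hlen
      simpa using hlen

theorem norm_geoNorm : GeoNorm (fun g : F2 => norm g) where
  one := norm_one
  inv := fun _ => norm_inv_eq
  mul := norm_mul_le
  eq_one := fun _ hg => FreeGroup.norm_eq_zero.mp hg
  geo := norm_geo

/-- Multiplying on the left by a letter adds or removes the head of the reduced word. -/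
theorem toWord_letter_mul (s g : F2) (hs : norm s = 1) :
    (∃ x, (s * g).toWord = x :: g.toWord) ∨ (∃ x, g.toWord = x :: (s * g).toWord) := by
  have hlen : s.toWord.length = 1 := hs
  obtain ⟨x, hx⟩ := List.length_eq_one_iff.mp hlen
  have h : (s * g).toWord = reduce (x :: g.toWord) := by
    rw [toWord_mul, hx]; rfl
  rw [reduce.cons, reduce_toWord] at h
  match hw : g.toWord with
  | [] =>
    left
    refine ⟨x, ?_⟩
    rw [hw] at h
    exact h
  | y :: L =>
    rw [hw] at h
    simp only at h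
    split_ifs at h with hc
    · right
      exact ⟨y, by rw [h]⟩
    · left
      exact ⟨x, h⟩

open Classical in
/-- A function which is Lipschitz for the word metric and detects the cone of words ending with
`u`. -/
noncomputable def coneF (u : List (Fin 2 × Bool)) (g : F2) : ℤ :=
  if u <:+ g.toWord then (norm g : ℤ) - u.length else (u.length : ℤ) - norm g

theorem coneF_aux (u : List (Fin 2 × Bool)) (g h : F2) (x : Fin 2 × Bool)
    (hgh : h.toWord = x :: g.toWord) : |coneF u h - coneF u g| ≤ 1 := by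
  have hn : norm h = norm g + 1 := by
    show h.toWord.length = g.toWord.length + 1
    rw [hgh]; rfl
  unfold coneF
  by_cases h1 : u <:+ g.toWord
  · have h2 : u <:+ h.toWord := by
      rw [hgh]; exact h1.trans (List.suffix_cons x _)
    rw [if_pos h1, if_pos h2, hn]
    rw [abs_le]; constructor <;> push_cast <;> omega
  · by_cases h2 : u <:+ h.toWord
    · rw [if_neg h1, if_pos h2]
      rw [hgh, List.suffix_cons_iff] at h2
      rcases h2 with h2 | h2
      · have : (u.length : ℤ) = norm h := by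
          rw [h2, ← hgh]; rfl
        rw [this, hn, abs_le]; constructor <;> push_cast <;> omega
      · exact absurd h2 h1
    · rw [if_neg h1, if_neg h2, hn]
      rw [abs_le]; constructor <;> push_cast <;> omega

theorem coneF_lip (u : List (Fin 2 × Bool)) :
    ∀ (n : ℕ) (w g : F2), norm w = n → |coneF u (w * g) - coneF u g| ≤ n := by
  intro n
  induction n with
  | zero =>
    intro w g hw
    rw [FreeGroup.norm_eq_zero] at hw
    simp [hw]
  | succ n ih =>
    intro w g hw
    obtain ⟨s, hs, hk⟩ := norm_geo w n hw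
    have h1 := ih (s⁻¹ * w) g hk
    have h2 : |coneF u (w * g) - coneF u (s⁻¹ * w * g)| ≤ 1 := by
      have h3 := toWord_letter_mul s (s⁻¹ * w * g) hs
      have h4 : s * (s⁻¹ * w * g) = w * g := by group
      rw [h4] at h3
      rcases h3 with ⟨x, hx⟩ | ⟨x, hx⟩
      · exact coneF_aux u _ _ x hx
      · rw [abs_sub_comm]
        exact coneF_aux u _ _ x hx
    rw [abs_le] at *
    push_cast
    constructor <;> omega

theorem cone_dist (u : List (Fin 2 × Bool)) (x g : F2) (hx : u <:+ x.toWord)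
    (hg : ¬ u <:+ g.toWord) : norm x + norm g ≤ norm (x * g⁻¹) + 2 * u.length := by
  have h := coneF_lip u _ (x * g⁻¹) g rfl
  rw [inv_mul_cancel_right] at h
  unfold coneF at h
  rw [if_pos hx, if_neg hg, abs_le] at h
  omega

/-- The word with `R` letters of one kind followed by `i` letters of another kind. -/
def rayWord (R i : ℕ) : List (Fin 2 × Bool) :=
  List.replicate R (1, true) ++ List.replicate i (0, true)

theorem rayWord_reduced (R i : ℕ) : FreeGroup.IsReduced (rayWord R i) := by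
  have h : ∀ L : List (Fin 2 × Bool), (∀ x ∈ L, x.2 = true) → FreeGroup.IsReduced L := by
    intro L hL
    unfold FreeGroup.IsReduced
    rw [List.isChain_iff_forall_rel_of_append_cons_cons]
    rintro a b l₁ l₂ rfl -
    rw [hL a (by simp), hL b (by simp)]
  apply h
  intro x hx
  unfold rayWord at hx
  rw [List.mem_append, List.mem_replicate, List.mem_replicate] at hx
  rcases hx with ⟨_, rfl⟩ | ⟨_, rfl⟩ <;> rfl

/-- Points on the `i`-th ray. -/
def ray (R i : ℕ) : F2 := FreeGroup.mk (rayWord R i)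

theorem ray_toWord (R i : ℕ) : (ray R i).toWord = rayWord R i := by
  unfold ray
  rw [toWord_mk, (rayWord_reduced R i).reduce_eq]

theorem ray_norm (R i : ℕ) : norm (ray R i) = R + i := by
  show (ray R i).toWord.length = R + i
  rw [ray_toWord]; simp [rayWord]

theorem rayWord_suffix {R R' i : ℕ} (h : R' ≤ R) : rayWord R' i <:+ rayWord R i := by
  unfold rayWord
  obtain ⟨c, rfl⟩ := Nat.exists_eq_add_of_le h
  rw [Nat.add_comm R' c, List.replicate_add, List.append_assoc]
  exact List.suffix_append _ _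

theorem rayWord_inj {k i j : ℕ}
    (h : rayWord (k - i) i = rayWord (k - j) j) : i = j := by
  have h2 := congrArg (List.count ((0 : Fin 2), true)) h
  simpa [rayWord, List.count_append, List.count_replicate] using h2

end Free

/-! ### The two products -/

section Products

open FreeGroup

/-- The underlying group of both graphs. -/
abbrev Grp : Type := F2 × Multiplicative ℤ

/-- The word norm of the integers. -/
def zn (m : Multiplicative ℤ) : ℕ := (Multiplicative.toAdd m).natAbs

theorem zn_geo (m : Multiplicative ℤ) (n : ℕ) (h : zn m = n + 1) :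
    ∃ s, zn s = 1 ∧ zn (s⁻¹ * m) = n := by
  unfold zn at *
  rcases le_or_gt 0 (Multiplicative.toAdd m) with h0 | h0
  · refine ⟨Multiplicative.ofAdd 1, ?_, ?_⟩
    · simp
    · rw [toAdd_mul, toAdd_inv, toAdd_ofAdd]; omega
  · refine ⟨Multiplicative.ofAdd (-1), ?_, ?_⟩
    · simp
    · rw [toAdd_mul, toAdd_inv, toAdd_ofAdd]; omega

/-- The sum norm. -/
def N1 (g : Grp) : ℕ := norm g.1 + zn g.2

/-- The maximum norm. -/
def Nm (g : Grp) : ℕ := max (norm g.1) (zn g.2)

theorem zn_one : zn 1 = 0 := rfl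

theorem zn_inv (m : Multiplicative ℤ) : zn m⁻¹ = zn m := by
  unfold zn; rw [toAdd_inv, Int.natAbs_neg]

theorem zn_mul (m k : Multiplicative ℤ) : zn (m * k) ≤ zn m + zn k := by
  unfold zn; rw [toAdd_mul]; exact Int.natAbs_add_le _ _

theorem zn_eq_zero (m : Multiplicative ℤ) (h : zn m = 0) : m = 1 := by
  unfold zn at h
  rw [Int.natAbs_eq_zero] at h
  exact h

theorem N1_geo : GeoNorm N1 where
  one := by unfold N1; simp [zn_one]
  inv := fun g => by
    unfold N1
    rw [Prod.fst_inv, Prod.snd_inv, norm_inv_eq, zn_inv]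
  mul := fun g h => by
    unfold N1
    rw [Prod.fst_mul, Prod.snd_mul]
    have := norm_mul_le g.1 h.1
    have := zn_mul g.2 h.2
    omega
  eq_one := fun g hg => by
    unfold N1 at hg
    have h1 : norm g.1 = 0 := by omega
    have h2 : zn g.2 = 0 := by omega
    exact Prod.ext (FreeGroup.norm_eq_zero.mp h1) (zn_eq_zero _ h2)
  geo := fun g n hg => by
    unfold N1 at *
    rcases Nat.eq_zero_or_pos (norm g.1) with h0 | h0
    · obtain ⟨s, hs, hk⟩ := zn_geo g.2 n (by omega)
      refine ⟨(1, s), ?_, ?_⟩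
      · simp [hs]
      · simp only [Prod.fst_mul, Prod.snd_mul, Prod.fst_inv, Prod.snd_inv, inv_one, one_mul]
        omega
    · obtain ⟨s, hs, hk⟩ := norm_geo g.1 (norm g.1 - 1) (by omega)
      refine ⟨(s, 1), ?_, ?_⟩
      · simp [hs, zn_one]
      · simp only [Prod.fst_mul, Prod.snd_mul, Prod.fst_inv, Prod.snd_inv, inv_one, one_mul]
        omega

theorem Nm_geo : GeoNorm Nm where
  one := by unfold Nm; simp [zn_one]
  inv := fun g => by
    unfold Nm
    rw [Prod.fst_inv, Prod.snd_inv, norm_inv_eq, zn_inv]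
  mul := fun g h => by
    unfold Nm
    rw [Prod.fst_mul, Prod.snd_mul]
    have := norm_mul_le g.1 h.1
    have := zn_mul g.2 h.2
    omega
  eq_one := fun g hg => by
    unfold Nm at hg
    have h1 : norm g.1 = 0 := by omega
    have h2 : zn g.2 = 0 := by omega
    exact Prod.ext (FreeGroup.norm_eq_zero.mp h1) (zn_eq_zero _ h2)
  geo := fun g n hg => by
    unfold Nm at *
    have hA : ∃ s : F2, norm s ≤ 1 ∧ norm (s⁻¹ * g.1) ≤ n ∧
        (norm g.1 = n + 1 → norm s = 1 ∧ norm (s⁻¹ * g.1) = n) ∧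
        (norm g.1 ≠ n + 1 → s = 1) := by
      by_cases h : norm g.1 = n + 1
      · obtain ⟨s, hs, hk⟩ := norm_geo g.1 n h
        exact ⟨s, by omega, by omega, fun _ => ⟨hs, hk⟩, fun h' => absurd h h'⟩
      · refine ⟨1, by simp, ?_, fun h' => absurd h' h, fun _ => rfl⟩
        rw [inv_one, one_mul]; omega
    have hB : ∃ s : Multiplicative ℤ, zn s ≤ 1 ∧ zn (s⁻¹ * g.2) ≤ n ∧
        (zn g.2 = n + 1 → zn s = 1 ∧ zn (s⁻¹ * g.2) = n) := by
      by_cases h : zn g.2 = n + 1
      · obtain ⟨s, hs, hk⟩ := zn_geo g.2 n h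
        exact ⟨s, by omega, by omega, fun _ => ⟨hs, hk⟩⟩
      · refine ⟨1, by simp [zn_one], ?_, fun h' => absurd h' h⟩
        rw [inv_one, one_mul]; omega
    obtain ⟨s, hs1, hs2, hs3, -⟩ := hA
    obtain ⟨t, ht1, ht2, ht3⟩ := hB
    refine ⟨(s, t), ?_, ?_⟩
    · simp only
      by_cases h : norm g.1 = n + 1
      · have := hs3 h; omega
      · have := ht3 (by omega); omega
    · simp only [Prod.fst_mul, Prod.snd_mul, Prod.fst_inv, Prod.snd_inv]
      by_cases h : norm g.1 = n + 1
      · have := hs3 h; omega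
      · have := ht3 (by omega); omega

theorem ball_finite (r : ℕ) : {g : Grp | norm g.1 ≤ r ∧ zn g.2 ≤ r}.Finite := by
  have h1 : {g : F2 | norm g ≤ r}.Finite := by
    apply Set.Finite.of_finite_image (f := FreeGroup.toWord)
    · refine (List.finite_length_le (Fin 2 × Bool) r).subset ?_
      rintro _ ⟨g, hg, rfl⟩
      exact hg
    · exact toWord_injective.injOn
  have h2 : {m : Multiplicative ℤ | zn m ≤ r}.Finite := by
    have h3 : (Set.Icc (-(r : ℤ)) r).Finite := Set.finite_Icc _ _
    apply Set.Finite.of_finite_image (f := Multiplicative.toAdd)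
    · refine h3.subset ?_
      rintro _ ⟨g, hg, rfl⟩
      simp only [Set.mem_ofPred_eq, zn] at hg
      simp only [Set.mem_Icc]
      omega
    · exact Multiplicative.toAdd.injective.injOn
  refine (h1.prod h2).subset ?_
  rintro g ⟨ha, hb⟩
  exact ⟨ha, hb⟩

instance : Infinite Grp := by
  have : Infinite (Multiplicative ℤ) := inferInstanceAs (Infinite ℤ)
  infer_instance

/-- The tree times the line with the maximum metric. -/
def Gm : SimpleGraph Grp := cay Nm Nm_geo

/-- The tree times the line with the sum metric. -/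
def G1 : SimpleGraph Grp := cay N1 N1_geo

theorem Gm_admissible : IsAdmissible Gm := by
  apply cay_admissible Nm_geo inferInstance
  refine (ball_finite 1).subset ?_
  intro g hg
  simp only [Set.mem_ofPred_eq, Nm] at *
  omega

theorem G1_admissible : IsAdmissible G1 := by
  apply cay_admissible N1_geo inferInstance
  refine (ball_finite 1).subset ?_
  intro g hg
  simp only [Set.mem_ofPred_eq, N1] at *
  omega

theorem quasi : QuasiIsometric Gm G1 := by
  refine ⟨id, 2, 0, by norm_num, le_refl _, ?_, ?_⟩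
  · intro x y
    unfold Gm G1
    rw [cay_dist, cay_dist]
    simp only [id]
    have h1 : Nm (x * y⁻¹) ≤ N1 (x * y⁻¹) := by unfold Nm N1; omega
    have h2 : N1 (x * y⁻¹) ≤ 2 * Nm (x * y⁻¹) := by unfold Nm N1; omega
    have h3 : (Nm (x * y⁻¹) : ℝ) ≤ N1 (x * y⁻¹) := by exact_mod_cast h1
    have h4 : (N1 (x * y⁻¹) : ℝ) ≤ 2 * Nm (x * y⁻¹) := by exact_mod_cast h2
    have h5 : (0 : ℝ) ≤ Nm (x * y⁻¹) := Nat.cast_nonneg _
    constructor <;> linarith
  · intro w
    exact ⟨w, by simp⟩

/-! ### The sum metric has infinite survival number -/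

theorem G1_dist (u v : Grp) : G1.dist u v = norm (u.1 * v.1⁻¹) + zn (u.2 * v.2⁻¹) := by
  unfold G1
  rw [cay_dist]
  rfl

theorem Gm_dist (u v : Grp) :
    Gm.dist u v = max (norm (u.1 * v.1⁻¹)) (zn (u.2 * v.2⁻¹)) := by
  unfold Gm
  rw [cay_dist]
  rfl

/-- A point at height of `t` on the `i`-th ray issued from `t`. -/
def rayPt (t : Grp) (i R : ℕ) : Grp := (ray R i * t.1, t.2)

theorem rayPt_inj (t : Grp) (i : ℕ) : Function.Injective (rayPt t i) := by
  intro R R' h
  unfold rayPt at h
  have h1 := congrArg Prod.fst h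
  simp only [mul_left_inj] at h1
  have h2 := congrArg FreeGroup.norm h1
  rw [ray_norm, ray_norm] at h2
  omega

theorem rayPt_dist (t : Grp) (i R : ℕ) : G1.dist (rayPt t i R) t = R + i := by
  rw [G1_dist]
  unfold rayPt
  simp [ray_norm, zn_one]

theorem exists_far_site (n i : ℕ) (hi : i < n) (T : Finset Grp)
    (hsep : ∀ v₁ ∈ T, ∀ v₂ ∈ T, v₁ ≠ v₂ → 2 * (n + 1) < G1.dist v₁ v₂)
    (t : Grp) (ht : t ∈ T) (hfin : (cell G1 T t).Finite) :
    ∃ τ ∈ T, (cell G1 T τ).Infinite ∧
      rayWord (n + 1 - i) i <:+ (τ.1 * t.1⁻¹).toWord := by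
  classical
  have hT : T.Nonempty := ⟨t, ht⟩
  have hmin : ∀ R : ℕ, ∃ τ : T, ∀ v' ∈ T, G1.dist (rayPt t i R) τ ≤ G1.dist (rayPt t i R) v' := by
    intro R
    obtain ⟨τ, hτ, h⟩ := T.exists_min_image (fun v => G1.dist (rayPt t i R) v) hT
    exact ⟨⟨τ, hτ⟩, h⟩
  choose f hf using hmin
  obtain ⟨τ, hτ⟩ := Finite.exists_infinite_fiber f
  have hτ' : (f ⁻¹' {τ}).Infinite := Set.infinite_coe_iff.mp hτ
  refine ⟨τ, τ.2, ?_, ?_⟩
  · have h1 : ((rayPt t i) '' (f ⁻¹' {τ})).Infinite :=
      hτ'.image (rayPt_inj t i).injOn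
    refine h1.mono ?_
    rintro _ ⟨R, hR, rfl⟩
    have hR' : f R = τ := hR
    intro v' hv'
    rw [← hR']
    exact hf R v' hv'
  · have hbad : ({R : ℕ | rayPt t i R ∈ cell G1 T t} ∪ Set.Iio (n + 1)).Finite := by
      apply Set.Finite.union
      · exact hfin.preimage (rayPt_inj t i).injOn
      · exact Set.finite_Iio _
    obtain ⟨R, hR, hRbad⟩ := (hτ'.sdiff hbad).nonempty
    have hR' : f R = τ := hR
    rw [Set.mem_union, not_or] at hRbad
    obtain ⟨hb1, hb2⟩ := hRbad
    have hRn : n + 1 ≤ R := by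
      by_contra hlt
      exact hb2 (by simp only [Set.mem_Iio]; omega)
    have hb3 : ¬ ∀ v' ∈ T, G1.dist (rayPt t i R) t ≤ G1.dist (rayPt t i R) v' := hb1
    push Not at hb3
    obtain ⟨v', hv', hlt⟩ := hb3
    have h1 : G1.dist (rayPt t i R) τ < R + i := by
      have := hf R v' hv'
      rw [hR'] at this
      rw [rayPt_dist] at hlt
      omega
    have hne : (τ : Grp) ≠ t := by
      intro h
      rw [h, rayPt_dist] at h1
      omega
    have h2 := hsep τ τ.2 t ht hne
    rw [G1_dist] at h1 h2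
    by_contra hcon
    have h3 := cone_dist (rayWord (n + 1 - i) i) (ray R i) ((τ : Grp).1 * t.1⁻¹)
      (by rw [ray_toWord]; exact rayWord_suffix (by omega)) hcon
    rw [ray_norm] at h3
    have h4 : ray R i * ((τ : Grp).1 * t.1⁻¹)⁻¹ = (rayPt t i R).1 * (τ : Grp).1⁻¹ := by
      unfold rayPt
      group
    rw [h4] at h3
    have h5 : zn ((rayPt t i R).2 * (τ : Grp).2⁻¹) = zn ((τ : Grp).2 * t.2⁻¹) := by
      unfold rayPt
      rw [← zn_inv, mul_inv_rev, inv_inv]
    rw [h5] at h1
    have h6 : (rayWord (n + 1 - i) i).length = n + 1 := by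
      simp only [rayWord, List.length_append, List.length_replicate]
      omega
    rw [h6] at h3
    omega

theorem G1_survives (n : ℕ) (T : Finset Grp) (hT : IsSites G1 (2 * (n + 1)) n T) :
    n ≤ numInfinite G1 T := by
  classical
  obtain ⟨hcard, hsep⟩ := hT
  unfold numInfinite
  by_cases hall : ∀ t ∈ T, (cell G1 T t).Infinite
  · have : {v : Grp | v ∈ T ∧ (cell G1 T v).Infinite} = (T : Set Grp) := by
      ext v
      simp only [Set.mem_ofPred_eq, Finset.mem_coe]
      exact ⟨fun h => h.1, fun h => ⟨h, hall v h⟩⟩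
    rw [this, Set.ncard_coe_finset]
    exact hcard
  · push Not at hall
    obtain ⟨t, ht, hfin⟩ := hall
    have h : ∀ i : Fin n, ∃ τ ∈ T, (cell G1 T τ).Infinite ∧
        rayWord (n + 1 - i) i <:+ (τ.1 * t.1⁻¹).toWord :=
      fun i => exists_far_site n i i.2 T hsep t ht hfin
    choose τ hτ1 hτ2 hτ3 using h
    have hinj : Function.Injective τ := by
      intro i j hij
      have h1 := hτ3 i
      have h2 := hτ3 j
      rw [hij] at h1
      have hl : ∀ k : Fin n, (rayWord (n + 1 - k) k).length = n + 1 := by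
        intro k
        have := k.2
        simp only [rayWord, List.length_append, List.length_replicate]
        omega
      have h3 := List.suffix_of_suffix_length_le h1 h2 (by rw [hl, hl])
      have h4 := h3.eq_of_length (by rw [hl, hl])
      exact Fin.ext (rayWord_inj h4)
    have hsub : Set.range τ ⊆ {v : Grp | v ∈ T ∧ (cell G1 T v).Infinite} := by
      rintro _ ⟨i, rfl⟩
      exact ⟨hτ1 i, hτ2 i⟩
    have hfinset : {v : Grp | v ∈ T ∧ (cell G1 T v).Infinite}.Finite :=
      T.finite_toSet.subset (fun v hv => hv.1)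
    calc n = (Set.range τ).ncard := by
          rw [← Set.image_univ, Set.ncard_image_of_injective _ hinj, Set.ncard_univ]
          simp
      _ ≤ _ := Set.ncard_le_ncard hsub hfinset

theorem G1_survival : survival G1 = ⊤ := by
  unfold survival
  rw [sSup_eq_top]
  intro b hb
  lift b to ℕ using hb.ne
  refine ⟨((b + 1 : ℕ) : ℕ∞), ⟨b + 1, rfl, by omega, 2 * (b + 1 + 1), ?_⟩, ?_⟩
  · intro T hT
    exact G1_survives (b + 1) T hT
  · exact_mod_cast Nat.lt_succ_self b

/-! ### The maximum metric has finite survival number -/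

/-- The letters of the free group. -/
noncomputable def letters : List F2 :=
  [FreeGroup.of 0, (FreeGroup.of 0)⁻¹, FreeGroup.of 1, (FreeGroup.of 1)⁻¹]

theorem mem_letters (s : F2) (hs : norm s = 1) : s ∈ letters := by
  have hlen : s.toWord.length = 1 := hs
  obtain ⟨x, hx⟩ := List.length_eq_one_iff.mp hlen
  have h : s = FreeGroup.mk [x] := by rw [← hx, mk_toWord]
  obtain ⟨a, b⟩ := x
  unfold letters
  fin_cases a <;> cases b
  · have h' : s = (FreeGroup.of 0)⁻¹ := h
    simp [h']
  · have h' : s = FreeGroup.of 0 := h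
    simp [h']
  · have h' : s = (FreeGroup.of 1)⁻¹ := h
    simp [h']
  · have h' : s = FreeGroup.of 1 := h
    simp [h']

/-- The letter attached to the height `k`. -/
noncomputable def letterAt (n : ℕ) (k : ℤ) : F2 :=
  if k < 0 then letters.getD (-1 - k).toNat 1
  else if k < n then 1 else letters.getD (k - n).toNat 1

/-- The site at height `k`. -/
noncomputable def site (d n : ℕ) (k : ℤ) : Grp :=
  (letterAt n k, Multiplicative.ofAdd (((d : ℤ) + 1) * k))

theorem site_zn (d n : ℕ) (j k : ℤ) :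
    zn ((site d n j).2 * ((site d n k).2)⁻¹) = (((d : ℤ) + 1) * (j - k)).natAbs := by
  unfold site zn
  simp only [toAdd_mul, toAdd_inv, toAdd_ofAdd]
  congr 1
  ring

theorem site_sep (d n : ℕ) (j k : ℤ) (hjk : j ≠ k) :
    d < Gm.dist (site d n j) (site d n k) := by
  rw [Gm_dist, site_zn, Int.natAbs_mul]
  have h1 : 1 ≤ (j - k).natAbs := by omega
  have h2 : ((d : ℤ) + 1).natAbs = d + 1 := by omega
  rw [h2]
  have h3 : d + 1 ≤ (d + 1) * (j - k).natAbs := Nat.le_mul_of_pos_right _ h1
  omega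

theorem site_inj (d n : ℕ) : Function.Injective (site d n) := by
  intro j k h
  by_contra hjk
  have := site_sep d n j k hjk
  rw [h, SimpleGraph.dist_self] at this
  omega

open Classical in
/-- The set of sites. -/
noncomputable def sites (d n : ℕ) : Finset Grp :=
  (Finset.Ico (-4 : ℤ) (n + 4)).image (site d n)

theorem mem_sites_top (d n : ℕ) (s : F2) (hs : norm s = 1) :
    ∃ Y : ℤ, ((d : ℤ) + 1) * n ≤ Y ∧ Y ≤ ((d : ℤ) + 1) * (n + 4) ∧
      (s, Multiplicative.ofAdd Y) ∈ sites d n := by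
  classical
  obtain ⟨k, hk, hks⟩ := List.getElem_of_mem (mem_letters s hs)
  have hk4 : k < 4 := hk
  refine ⟨((d : ℤ) + 1) * (n + k), ?_, ?_, ?_⟩
  · apply mul_le_mul_of_nonneg_left <;> omega
  · apply mul_le_mul_of_nonneg_left <;> omega
  · unfold sites
    rw [Finset.mem_image]
    refine ⟨n + k, ?_, ?_⟩
    · rw [Finset.mem_Ico]; omega
    · unfold site letterAt
      rw [if_neg (by omega), if_neg (by omega)]
      have : ((n : ℤ) + k - n).toNat = k := by omega
      rw [this, List.getD_eq_getElem _ _ hk, hks]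

theorem mem_sites_bot (d n : ℕ) (s : F2) (hs : norm s = 1) :
    ∃ Y : ℤ, Y ≤ -((d : ℤ) + 1) ∧ -(((d : ℤ) + 1) * 4) ≤ Y ∧
      (s, Multiplicative.ofAdd Y) ∈ sites d n := by
  classical
  obtain ⟨k, hk, hks⟩ := List.getElem_of_mem (mem_letters s hs)
  have hk4 : k < 4 := hk
  refine ⟨((d : ℤ) + 1) * (-1 - k), ?_, ?_, ?_⟩
  · nlinarith
  · nlinarith
  · unfold sites
    rw [Finset.mem_image]
    refine ⟨-1 - k, ?_, ?_⟩
    · rw [Finset.mem_Ico]; omega
    · unfold site letterAt
      rw [if_pos (by omega)]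
      have : (-1 - (-1 - (k : ℤ))).toNat = k := by omega
      rw [this, List.getD_eq_getElem _ _ hk, hks]

theorem exists_closer (x : F2) : ∃ s : F2, norm s = 1 ∧
    ((norm x = 0 ∧ norm (x * s⁻¹) = 1) ∨ norm (x * s⁻¹) + 1 = norm x) := by
  rcases Nat.eq_zero_or_pos (norm x) with h0 | h0
  · refine ⟨FreeGroup.of 0, norm_of 0, Or.inl ⟨h0, ?_⟩⟩
    rw [FreeGroup.norm_eq_zero] at h0
    rw [h0, one_mul, norm_inv_eq, norm_of]
  · obtain ⟨s, hs, hk⟩ := norm_geo x⁻¹ (norm x - 1) (by rw [norm_inv_eq]; omega)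
    refine ⟨s⁻¹, by rw [norm_inv_eq, hs], Or.inr ?_⟩
    have : s⁻¹ * x⁻¹ = (x * s)⁻¹ := by group
    rw [this, norm_inv_eq] at hk
    rw [inv_inv]
    omega

theorem inner_cell_finite (d n : ℕ) (k : ℤ) (h0 : 0 ≤ k) (hn : k < n) :
    (cell Gm (sites d n) (site d n k)).Finite := by
  set B : ℤ := ((d : ℤ) + 1) * (n + 4) with hB
  refine (ball_finite (4 * B.toNat + 4)).subset ?_
  rintro ⟨x, z⟩ hu
  obtain ⟨s, hs, hx⟩ := exists_closer x
  obtain ⟨Y, hY1, hY2, hY⟩ := mem_sites_top d n s hs
  obtain ⟨Z, hZ1, hZ2, hZ⟩ := mem_sites_bot d n s hs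
  have h1 := hu _ hY
  have h2 := hu _ hZ
  rw [← hB] at hY2
  rw [Gm_dist, Gm_dist] at h1 h2
  have hl : (site d n k).1 = 1 := by
    unfold site letterAt
    simp only
    rw [if_neg (by omega), if_pos hn]
  have hy : (site d n k).2 = Multiplicative.ofAdd (((d : ℤ) + 1) * k) := rfl
  rw [hl, hy] at h1 h2
  simp only [inv_one, mul_one, zn, toAdd_mul, toAdd_inv, toAdd_ofAdd] at h1 h2
  set y : ℤ := ((d : ℤ) + 1) * k with hydef
  set w : ℤ := Multiplicative.toAdd z with hw
  have hy0 : 0 ≤ y := by positivity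
  have hyY : y + 1 ≤ Y := by
    have : ((d : ℤ) + 1) * k + 1 ≤ ((d : ℤ) + 1) * n := by nlinarith
    linarith
  have hdB : ((d : ℤ) + 1) * 4 ≤ B := by
    rw [hB]; nlinarith
  have hd0 : (0 : ℤ) ≤ (d : ℤ) := Int.natCast_nonneg d
  clear_value B y w
  simp only [Set.mem_ofPred_eq, zn, ← hw]
  clear hY hZ hu hydef hw hy hl hB
  rcases hx with ⟨hx0, hx1⟩ | hx1
  · rw [hx1] at h1 h2
    omega
  · omega

theorem Gm_bound (d n : ℕ) : numInfinite Gm (sites d n) ≤ 8 := by
  classical
  unfold numInfinite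
  have hsub : {v : Grp | v ∈ sites d n ∧ (cell Gm (sites d n) v).Infinite} ⊆
      (((Finset.Ico (-4 : ℤ) 0 ∪ Finset.Ico (n : ℤ) (n + 4)).image (site d n) : Finset Grp) :
        Set Grp) := by
    rintro v ⟨hv, hinf⟩
    unfold sites at hv
    rw [Finset.mem_image] at hv
    obtain ⟨k, hk, rfl⟩ := hv
    rw [Finset.mem_Ico] at hk
    rw [Finset.mem_coe, Finset.mem_image]
    refine ⟨k, ?_, rfl⟩
    rw [Finset.mem_union, Finset.mem_Ico, Finset.mem_Ico]
    by_contra hcon
    exact hinf (inner_cell_finite d n k (by omega) (by omega))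
  calc _ ≤ _ := Set.ncard_le_ncard hsub (Finset.finite_toSet _)
    _ = _ := Set.ncard_coe_finset _
    _ ≤ _ := Finset.card_image_le
    _ ≤ _ := Finset.card_union_le _ _
    _ = 8 := by
      rw [Int.card_Ico, Int.card_Ico]
      omega

theorem Gm_survival : survival Gm ≤ 8 := by
  classical
  unfold survival
  apply sSup_le
  rintro _ ⟨n, rfl, -, d, h⟩
  have h1 : IsSites Gm d n (sites d n) := by
    constructor
    · unfold sites
      rw [Finset.card_image_of_injective _ (site_inj d n), Int.card_Ico]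
      omega
    · intro v₁ hv₁ v₂ hv₂ hne
      unfold sites at hv₁ hv₂
      rw [Finset.mem_image] at hv₁ hv₂
      obtain ⟨j, -, rfl⟩ := hv₁
      obtain ⟨k, -, rfl⟩ := hv₂
      exact site_sep d n j k (fun h => hne (by rw [h]))
  have h2 := (h _ h1).trans (Gm_bound d n)
  exact_mod_cast h2

end Products

/-- There are two quasi-isometric infinite connected locally finite vertex-transitive graphs, one
with finite and one with infinite survival number. -/
theorem result : ∃ (V W : Type) (G : SimpleGraph V) (H : SimpleGraph W),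
    IsAdmissible G ∧ IsAdmissible H ∧ QuasiIsometric G H ∧ survival G < ⊤ ∧ survival H = ⊤ :=
  ⟨Grp, Grp, Gm, G1, Gm_admissible, G1_admissible, quasi,
    lt_of_le_of_lt Gm_survival (by exact_mod_cast ENat.natCast_lt_top 8), G1_survival⟩

end Pool.Agent.Results.MP_b633b3_co.Disproof
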